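import Pool.Agent.H447.TR.Main

/-!
# Computability of the set of Collatz trajectories reaching 1: components and random advice

The question asks whether the set `A` of the positive integers whose trajectory under the `3 n + 1` map
reaches `1` is computable. The Collatz graph falls into components (two numbers are in the same component if
their trajectories meet), and `A` is one of them. We show:

1. `A` is computable if and only if there is a c.e. set `B` disjoint from `A` such that the number of the
   components which have an element at most `N`, contain no cycle and do not meet `B` can be found, for all `N` in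
   some infinite decidable set, by an algorithm with random seeds, which need not halt and has to be
   right for a fraction `1 / q` of the seeds only. So the number of the components without cycles up to `N`,
   even with a bounded error, decides `A`.
2. In particular if `A` is not computable, there are infinitely many components without cycles, even infinitely
   many which avoid a given c.e. set disjoint from `A`.
3. `A` is computable if and only if, for all `N` in some infinite decidable set, an algorithm with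
   random seeds recognises (by halting) the numbers `m ≤ N` outside `A` with at most `N ^ (1 / 5)` errors, for a
   fraction `1 / q` of the seeds.

For 3. the tree above a number `n` in the Collatz graph has more than `2 N ^ (1 / 5)` vertices `m ≤ N`, for large
`N`, and they are in `A` if and only if `n` is; so the majority of the answers is right. The advice is
removed with the largest `m` such that a fraction `m / q` of the seeds halts at arbitrarily large stages.
-/

set_option autoImplicit false

namespace Pool.Agent.Results.MP_e21d3a_lc.ComponentsAndRandomAdvice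

/-- the `3 n + 1` map -/
def f (n : ℕ) : ℕ := if n % 2 = 0 then n / 2 else 3 * n + 1

/-- `n` belongs to `A`: it is positive and its trajectory reaches `1` -/
def InA (n : ℕ) : Prop := 0 < n ∧ ∃ k : ℕ, f^[k] n = 1

/-- The question: `A` is computable (this is the frozen statement). -/
def Q1 : Prop := ComputablePred InA

/-- the trajectories of `m` and `n` meet, that is, `m` and `n` are in the same component -/
def Meet (m n : ℕ) : Prop := ∃ i j, f^[i] m = f^[j] n

/-- the trajectory of `n` is eventually periodic, that is, the component of `n` contains a cycle -/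
def Periodic (n : ℕ) : Prop := ∃ i j, j < i ∧ f^[i] n = f^[j] n

/-- `n` is the least element of its component, which contains no cycle and no element of `B` -/
def Leader (B : ℕ → Prop) (n : ℕ) : Prop :=
  ¬ Periodic n ∧ (∀ m, B m → ¬ Meet m n) ∧ ∀ m < n, ¬ Meet m n

/-- the number of the leaders up to `N` -/
noncomputable def leaders (B : ℕ → Prop) (N : ℕ) : ℕ := {n | n ≤ N ∧ Leader B n}.ncard

/-- a fraction of at least `1 / q` of the seeds `b < M` satisfies `p` -/
def Often (q M : ℕ) (p : ℕ → Prop) : Prop := 0 < M ∧ M ≤ q * {b | b < M ∧ p b}.ncard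

/-- `r` is an infinite decidable set -/
def Stages (r : ℕ → Bool) : Prop := Computable r ∧ ∀ k, ∃ N ≥ k, r N = true

/-- the numbers `m`, `1 ≤ m ≤ N`, for which halting of `D` is not equivalent to `m ∉ A` -/
def Errors (D : ℕ →. ℕ) (N : ℕ) : Set ℕ := {m | 0 < m ∧ m ≤ N ∧ ((D m).Dom ↔ InA m)}

lemma inA_iff (n : ℕ) : InA n ↔ Pool.Agent.H447.TR.Rc n := by
  have h1 : (∃ k : ℕ, f^[k] n = 1) ↔ Pool.Agent.H447.TR.Rc n :=
    (Pool.Agent.H447.TR.gg_iff n).symm
  constructor
  · rintro ⟨_, h⟩
    exact h1.1 h
  · intro h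
    refine ⟨?_, h1.2 h⟩
    rcases Nat.eq_zero_or_pos n with h0 | h0
    · rw [h0] at h
      exact absurd h Pool.Agent.H447.TR.not_Rc_zero
    · exact h0

lemma q1_of_bound (h : ∃ C : ℕ → ℕ, Computable C ∧ ∀ n,
    (∃ k, Pool.Agent.H447.TR.gg (Pool.Agent.H447.TR.co^[k] n) = true) →
      Pool.Agent.H447.TR.gg (Pool.Agent.H447.TR.co^[C n] n) = true) : Q1 := by
  obtain ⟨C, hC, hC2⟩ := h
  refine ComputablePred.computable_iff.2
    ⟨fun n => Pool.Agent.H447.TR.gg (Pool.Agent.H447.TR.co^[C n] n), ?_, ?_⟩
  · exact Pool.Agent.H447.TR.gg_comp.comp (Computable.comp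
      (f := fun x : ℕ × ℕ => Pool.Agent.H447.TR.co^[x.1] x.2) (g := fun n => (C n, n))
      (Pool.Agent.H447.TR.iter_comp Pool.Agent.H447.TR.co_comp) (hC.pair Computable.id))
  · funext n
    rw [eq_iff_iff, inA_iff]
    exact ⟨fun h => hC2 n h, fun h => ⟨_, h⟩⟩

lemma mem_Ld {B : ℕ → Prop} {β : ℕ × ℕ → Bool} (hβ : ∀ m, B m ↔ ∃ u, β (m, u) = true) (n : ℕ) :
    n ∈ Pool.Agent.H447.TR.Ld f β ↔ Leader B n := by
  constructor
  · intro h
    refine ⟨?_, ?_, ?_⟩
    · rintro ⟨i, j, hi, hij⟩
      have h1 := h (Nat.pair (Nat.pair n 0) (Nat.pair i j))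
      unfold Pool.Agent.H447.TR.W at h1
      simp only [Nat.unpair_pair] at h1
      rw [decide_eq_true hij, decide_eq_true hi] at h1
      simp at h1
    · rintro m hm ⟨i, j, hij⟩
      obtain ⟨u, hu⟩ := (hβ m).1 hm
      have h1 := h (Nat.pair (Nat.pair m u) (Nat.pair i j))
      unfold Pool.Agent.H447.TR.W at h1
      simp only [Nat.unpair_pair] at h1
      rw [decide_eq_true hij, hu] at h1
      simp at h1
    · rintro m hm ⟨i, j, hij⟩
      have h1 := h (Nat.pair (Nat.pair m 0) (Nat.pair i j))
      unfold Pool.Agent.H447.TR.W at h1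
      simp only [Nat.unpair_pair] at h1
      rw [decide_eq_true hij, decide_eq_true hm] at h1
      simp at h1
  · rintro ⟨h1, h2, h3⟩ t
    by_contra h4
    rw [Bool.not_eq_false] at h4
    unfold Pool.Agent.H447.TR.W at h4
    simp only [Bool.and_eq_true, Bool.or_eq_true, decide_eq_true_eq] at h4
    obtain ⟨h5, h6 | ⟨h6, h7⟩ | h6⟩ := h4
    · exact h3 _ h6 ⟨_, _, h5⟩
    · rw [h6] at h5
      exact h1 ⟨_, _, h7, h5⟩
    · exact h2 _ ((hβ _).2 ⟨_, h6⟩) ⟨_, _, h5⟩

lemma exists_enum {B : ℕ → Prop} (hB : REPred B) :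
    ∃ β : ℕ × ℕ → Bool, Computable β ∧ ∀ m, B m ↔ ∃ u, β (m, u) = true := by
  obtain ⟨δ, h1, _, h3⟩ := Pool.Agent.H447.TR.dom_approx hB
  refine ⟨δ, h1, fun m => ?_⟩
  rw [← h3 m]
  constructor
  · intro h
    exact ⟨h, trivial⟩
  · rintro ⟨h, _⟩
    exact h

lemma components (B : ℕ → Prop) (hB : REPred B) (hBA : ∀ m, B m → ¬ InA m) (q : ℕ) (M : ℕ → ℕ)
    (F : ℕ × ℕ →. ℕ) (r : ℕ → Bool) (hM : Computable M) (hF : Partrec F) (hr : Stages r)
    (h : ∀ N, r N = true → Often q (M N) fun b => leaders B N ∈ F (N, b)) : Q1 := by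
  obtain ⟨β, hβ, hβ2⟩ := exists_enum hB
  refine q1_of_bound (Pool.Agent.H447.TR.core Pool.Agent.H447.TR.co_comp
    Pool.Agent.H447.TR.gg_inv Pool.Agent.H447.TR.gg_per hβ ?_ q hM hF hr.1 hr.2 fun N hN => ?_)
  · intro m u hu k
    by_contra h1
    rw [Bool.not_eq_false] at h1
    exact hBA m ((hβ2 m).2 ⟨u, hu⟩) ((inA_iff m).2 ⟨k, h1⟩)
  · have h1 := h N hN
    have h2 : leaders B N = {n | n ≤ N ∧ n ∈ Pool.Agent.H447.TR.Ld Pool.Agent.H447.TR.co β}.ncard := by
      unfold leaders
      refine congrArg Set.ncard ?_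
      ext n
      exact and_congr_right fun _ => (mem_Ld hβ2 n).symm
    rw [h2] at h1
    exact h1

/-- **Components and random advice.** -/
theorem result :
    (Q1 ↔ ∃ (B : ℕ → Prop) (q : ℕ) (M : ℕ → ℕ) (F : ℕ × ℕ →. ℕ) (r : ℕ → Bool),
      REPred B ∧ (∀ m, B m → ¬ InA m) ∧ Computable M ∧ Partrec F ∧ Stages r ∧
        ∀ N, r N = true → Often q (M N) fun b => leaders B N ∈ F (N, b)) ∧
    (¬ Q1 → ∀ B : ℕ → Prop, REPred B → (∀ m, B m → ¬ InA m) → {n | Leader B n}.Infinite) ∧
    (Q1 ↔ ∃ (q : ℕ) (M : ℕ → ℕ) (D : (ℕ × ℕ) × ℕ →. ℕ) (r : ℕ → Bool),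
      Computable M ∧ Partrec D ∧ Stages r ∧
        ∀ N, r N = true → Often q (M N) fun b => (Errors (fun m => D ((N, b), m)) N).ncard ^ 5 ≤ N) := by
  have hst : Stages fun _ => true := ⟨Computable.const true, fun k => ⟨k, le_rfl, rfl⟩⟩
  have hone : ∀ p : ℕ → Prop, p 0 → Often 1 1 p := by
    intro p hp
    refine ⟨Nat.one_pos, ?_⟩
    have h1 : {b | b < 1 ∧ p b} = {0} := by
      ext b
      constructor
      · rintro ⟨hb, _⟩
        exact Nat.lt_one_iff.1 hb
      · intro hb
        have hb' : b = 0 := hb
        exact ⟨by omega, by rw [hb']; exact hp⟩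
    rw [h1, Set.ncard_singleton]
  refine ⟨⟨fun hQ => ?_, ?_⟩, ?_, ⟨fun hQ => ?_, ?_⟩⟩
  · have h1 : ComputablePred fun n => ¬ InA n := ComputablePred.not hQ
    refine ⟨fun n => ¬ InA n, 1, fun _ => 1, fun _ => Part.some 0, fun _ => true, h1.to_re,
      fun _ h => h, Computable.const 1, (Computable.const 0).partrec, hst, fun N _ => hone _ ?_⟩
    have h2 : leaders (fun n => ¬ InA n) N = 0 := by
      unfold leaders
      have h3 : {n | n ≤ N ∧ Leader (fun n => ¬ InA n) n} = ∅ := by
        rw [Set.eq_empty_iff_forall_notMem]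
        rintro n ⟨_, h4, h5, _⟩
        by_cases h6 : InA n
        · obtain ⟨k, hk⟩ := (inA_iff n).1 h6
          exact h4 (Pool.Agent.H447.TR.gg_per n k hk)
        · exact h5 n h6 ⟨0, 0, rfl⟩
      rw [h3, Set.ncard_empty]
    change leaders (fun n => ¬ InA n) N ∈ (Part.some 0 : Part ℕ)
    rw [h2]
    exact Part.mem_some _
  · rintro ⟨B, q, M, F, r, hB, hBA, hM, hF, hr, h⟩
    exact components B hB hBA q M F r hM hF hr h
  · intro hQ B hB hBA
    by_contra hfin
    rw [Set.not_infinite] at hfin
    -- the number of the leaders is finally constant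
    refine hQ (components B hB hBA 1 (fun _ => 1) (fun _ => Part.some {n | Leader B n}.ncard)
      (fun N => decide (hfin.toFinset.sup id ≤ N)) (Computable.const 1)
      (Computable.const _).partrec ⟨Pool.Agent.H447.TR.le_dec_comp (Computable.const _)
        Computable.id, fun k => ⟨max k (hfin.toFinset.sup id), le_max_left _ _,
          decide_eq_true (le_max_right _ _)⟩⟩ fun N hN => hone _ ?_)
    have h1 : leaders B N = {n | Leader B n}.ncard := by
      unfold leaders
      refine congrArg Set.ncard ?_
      ext n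
      constructor
      · rintro ⟨_, h⟩
        exact h
      · intro h
        refine ⟨?_, h⟩
        have h2 : id n ≤ hfin.toFinset.sup id := Finset.le_sup (hfin.mem_toFinset.2 h)
        exact h2.trans (of_decide_eq_true hN)
    rw [h1]
    exact Part.mem_some _
  · obtain ⟨c, hc, hc2⟩ := ComputablePred.computable_iff.1 hQ
    have h1 : Partrec fun x : (ℕ × ℕ) × ℕ => (bif c x.2 then Part.none else Part.some 0 : Part ℕ) :=
      Partrec.cond (hc.comp Computable.snd) Partrec.none (Computable.const 0).partrec
    refine ⟨1, fun _ => 1, _, fun _ => true, Computable.const 1, h1, hst, fun N _ => hone _ ?_⟩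
    have h2 : Errors (fun m => (bif c m then Part.none else Part.some 0 : Part ℕ)) N = ∅ := by
      rw [Set.eq_empty_iff_forall_notMem]
      rintro m ⟨_, _, h3⟩
      have h4 : InA m ↔ c m = true := by rw [hc2]
      change (bif c m then Part.none else Part.some 0 : Part ℕ).Dom ↔ InA m at h3
      rw [h4] at h3
      cases h5 : c m
      · rw [h5] at h3
        simp at h3
      · rw [h5] at h3
        simp at h3
    change (Errors (fun m => (bif c m then Part.none else Part.some 0 : Part ℕ)) N).ncard ^ 5 ≤ N
    rw [h2, Set.ncard_empty]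
    exact Nat.zero_le _
  · rintro ⟨q, M, D, r, hM, hD, hr, h⟩
    refine q1_of_bound (Pool.Agent.H447.TR.avg q hM hD hr.1 hr.2 fun N hN => ?_)
    have h1 := h N hN
    have h2 : ∀ b, Errors (fun m => D ((N, b), m)) N = {m | 0 < m ∧ m ≤ N ∧
        ((D ((N, b), m)).Dom ↔ Pool.Agent.H447.TR.Rc m)} := by
      intro b
      ext m
      constructor
      · rintro ⟨a1, a2, a3⟩
        exact ⟨a1, a2, a3.trans (inA_iff m)⟩
      · rintro ⟨a1, a2, a3⟩
        exact ⟨a1, a2, a3.trans (inA_iff m).symm⟩
    simp only [h2] at h1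
    exact h1

end Pool.Agent.Results.MP_e21d3a_lc.ComponentsAndRandomAdvice
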